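import Mathlib

/-!
# MP_6d1e65_an: `τ_M` is the strongest triangle function universal for simple spaces
-/

namespace Pool.Agent.Results.MP_6d1e65_an.StrongestTauM

open Filter Topology Set
open scoped ENNReal

/-- Distance distribution functions `F : [0, ∞] → [0, 1]` (the bounds follow from monotonicity and
the values at the end points). -/
def IsDDF (F : ℝ≥0∞ → ℝ) : Prop :=
  Monotone F ∧ F 0 = 0 ∧ F ⊤ = 1 ∧ ∀ x : ℝ≥0∞, 0 < x → x < ⊤ → ContinuousWithinAt F (Iio x) x

/-- The set `Δ⁺`. -/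
abbrev Delta := {F : ℝ≥0∞ → ℝ // IsDDF F}

/-- A function which is locally constant to the left is left-continuous. -/
lemma leftCont_of_const {F : ℝ≥0∞ → ℝ} {x : ℝ≥0∞} {c : ℝ} (hx : F x = c)
    (h : ∀ᶠ t in 𝓝[<] x, F t = c) : ContinuousWithinAt F (Iio x) x := by
  have : Tendsto F (𝓝[<] x) (𝓝 c) := (tendsto_congr' h).mpr tendsto_const_nhds
  rw [ContinuousWithinAt, hx]
  exact this

/-- `ε_0`. -/
noncomputable def eps0 : Delta := ⟨fun x => if x = 0 then 0 else 1, by
  refine ⟨?_, by simp, by simp, ?_⟩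
  · intro x y hxy
    by_cases hx : x = 0
    · simp only [hx, if_true]; split_ifs <;> norm_num
    · have hy : y ≠ 0 := fun h => hx (le_antisymm (h ▸ hxy) bot_le)
      simp [hx, hy]
  · intro x hx _
    apply leftCont_of_const (c := 1) (by simp [hx.ne'])
    have : ∀ᶠ t in 𝓝[<] x, (0 : ℝ≥0∞) < t :=
      eventually_nhdsWithin_of_eventually_nhds (lt_mem_nhds hx)
    filter_upwards [this] with t ht
    simp [ht.ne']⟩

/-- `ε_∞`. -/
noncomputable def epsInf : Delta := ⟨fun x => if x = ⊤ then 1 else 0, by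
  refine ⟨?_, by simp, by simp, ?_⟩
  · intro x y hxy
    by_cases hy : y = ⊤
    · simp only [hy, if_true]; split_ifs <;> norm_num
    · have hx : x ≠ ⊤ := fun h => hy (top_le_iff.mp (h ▸ hxy))
      simp [hx, hy]
  · intro x _ hx
    apply leftCont_of_const (c := 0) (by simp [hx.ne])
    filter_upwards [self_mem_nhdsWithin] with t ht
    have : t ≠ ⊤ := (lt_trans ht hx).ne
    simp [this]⟩

/-- Triangle functions: commutative, associative, nondecreasing in each place, identity `ε_0`. -/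
def IsTriangle (τ : Delta → Delta → Delta) : Prop :=
  (∀ F G, τ F G = τ G F) ∧ (∀ F G H, τ (τ F G) H = τ F (τ G H)) ∧
    (∀ F F' G G', F ≤ F' → G ≤ G' → τ F G ≤ τ F' G') ∧ ∀ F, τ F eps0 = F

/-- The function `τ_M(F, G)`. -/
noncomputable def tauM (F G : Delta) (x : ℝ≥0∞) : ℝ :=
  sSup {r : ℝ | ∃ u v : ℝ≥0∞, u + v = x ∧ r = min (F.1 u) (G.1 v)}

/-- PSM spaces. -/
def IsPSM {S : Type} (𝓕 : S → S → Delta) : Prop :=
  (∀ p, 𝓕 p p = eps0) ∧ (∀ p q, p ≠ q → 𝓕 p q ≠ eps0) ∧ ∀ p q, 𝓕 p q = 𝓕 q p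

/-- PM spaces under `τ`. -/
def IsPM {S : Type} (τ : Delta → Delta → Delta) (𝓕 : S → S → Delta) : Prop :=
  IsPSM 𝓕 ∧ ∀ p q r, τ (𝓕 p q) (𝓕 q r) ≤ 𝓕 p r

/-- The function `x ↦ G(x / d)`, with value `1` at `x = ∞` and the conventions
`G(x / 0) = 1` for `x > 0`, `G(0 / 0) = 0`. -/
noncomputable def scaleFun (G : ℝ≥0∞ → ℝ) (d x : ℝ≥0∞) : ℝ := if x = ⊤ then 1 else G (x / d)

lemma le_one (G : Delta) (x : ℝ≥0∞) : G.1 x ≤ 1 := by
  rw [← G.2.2.2.1]; exact G.2.1 le_top

lemma nonneg (G : Delta) (x : ℝ≥0∞) : 0 ≤ G.1 x := by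
  rw [← G.2.2.1]; exact G.2.1 bot_le

lemma scaleFun_isDDF (G : Delta) (d : ℝ≥0∞) : IsDDF (scaleFun G.1 d) := by
  obtain ⟨hm, h0, h1, hc⟩ := G.2
  refine ⟨?_, ?_, ?_, ?_⟩
  · intro x y hxy
    unfold scaleFun
    by_cases hy : y = ⊤
    · simp only [hy, if_true]
      split_ifs
      · exact le_rfl
      · exact le_one G _
    · have hx : x ≠ ⊤ := fun h => hy (top_le_iff.mp (h ▸ hxy))
      simp only [hx, hy, if_false]
      exact hm (ENNReal.div_le_div_right hxy _)
  · unfold scaleFun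
    simp [h0]
  · unfold scaleFun
    simp
  · intro x hx0 hxt
    rcases eq_or_ne d 0 with rfl | hd0
    · have hval : ∀ t : ℝ≥0∞, 0 < t → scaleFun G.1 0 t = 1 := by
        intro t ht
        unfold scaleFun
        split_ifs
        · rfl
        · rw [ENNReal.div_zero ht.ne', h1]
      apply leftCont_of_const (hval x hx0)
      have : ∀ᶠ t in 𝓝[<] x, (0 : ℝ≥0∞) < t :=
        eventually_nhdsWithin_of_eventually_nhds (lt_mem_nhds hx0)
      filter_upwards [this] with t ht
      exact hval t ht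
    rcases eq_or_ne d ⊤ with rfl | hdt
    · have hval : ∀ t : ℝ≥0∞, t < ⊤ → scaleFun G.1 ⊤ t = 0 := by
        intro t ht
        unfold scaleFun
        rw [if_neg ht.ne, ENNReal.div_top, h0]
      apply leftCont_of_const (hval x hxt)
      filter_upwards [self_mem_nhdsWithin] with t ht
      exact hval t (lt_trans ht hxt)
    · have h2 : ContinuousWithinAt (fun t => G.1 (t / d)) (Iio x) x := by
        have hxd0 : 0 < x / d := ENNReal.div_pos hx0.ne' hdt
        have hxdt : x / d < ⊤ := ENNReal.div_lt_top hxt.ne hd0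
        have h3 := hc (x / d) hxd0 hxdt
        have hcont : Continuous fun t : ℝ≥0∞ => t / d := ENNReal.continuous_div_const d hd0
        refine ContinuousWithinAt.comp (t := Iio (x / d)) h3 hcont.continuousWithinAt ?_
        intro t ht
        exact ENNReal.div_lt_div_right hd0 hdt ht
      refine h2.congr ?_ ?_
      · intro t ht
        unfold scaleFun
        rw [if_neg (lt_trans ht hxt).ne]
      · unfold scaleFun
        rw [if_neg hxt.ne]

/-- The simple space `(S, d, G)`: `F_{pq}(x) = G(x / d(p, q))`. The metric may take the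
value `∞`. -/
noncomputable def simpleSpace (S : Type) [EMetricSpace S] (G : Delta) (p q : S) : Delta :=
  ⟨scaleFun G.1 (edist p q), scaleFun_isDDF G _⟩

/-- `τ` is universal for the class of all simple spaces. -/
def UniversalForSimple (τ : Delta → Delta → Delta) : Prop :=
  ∀ (S : Type) [EMetricSpace S] (G : Delta), G ≠ eps0 → G ≠ epsInf → IsPM τ (simpleSpace S G)

lemma le_eps0 (F : Delta) : F ≤ eps0 := by
  intro x
  by_cases hx : x = 0
  · rw [hx, F.2.2.1, eps0.2.2.1]
  · have : eps0.1 x = 1 := by simp [eps0, hx]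
    rw [this]
    exact le_one F x

/-- Left-continuity gives closedness of sublevel sets from the left. -/
lemma le_of_left (F : Delta) {x : ℝ≥0∞} (hx0 : 0 < x) (hxt : x < ⊤) {c : ℝ}
    (h : ∀ t, t < x → F.1 t ≤ c) : F.1 x ≤ c := by
  have h1 := F.2.2.2.2 x hx0 hxt
  have : (𝓝[<] x).NeBot := nhdsLT_neBot_of_exists_lt ⟨0, hx0⟩
  refine le_of_tendsto h1 ?_
  filter_upwards [self_mem_nhdsWithin] with t ht
  exact h t ht

lemma bdd_tauM (F H : Delta) (x : ℝ≥0∞) :
    BddAbove {r : ℝ | ∃ u v : ℝ≥0∞, u + v = x ∧ r = min (F.1 u) (H.1 v)} := by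
  refine ⟨1, ?_⟩
  rintro r ⟨u, v, _, rfl⟩
  exact le_trans (min_le_left _ _) (le_one F u)

lemma min_le_tauM (F H : Delta) {u v x : ℝ≥0∞} (h : u + v = x) :
    min (F.1 u) (H.1 v) ≤ tauM F H x :=
  le_csSup (bdd_tauM F H x) ⟨u, v, h, rfl⟩

lemma tauM_nonneg (F H : Delta) (x : ℝ≥0∞) : 0 ≤ tauM F H x := by
  refine le_trans ?_ (min_le_tauM F H (add_zero x))
  exact le_min (nonneg F x) (nonneg H 0)

/-- A splitting `u + v = x` at which both functions are at most `τ_M(F, H)(x)`. -/
lemma exists_split (F H : Delta) {x : ℝ≥0∞} (hx0 : 0 < x) (hxt : x < ⊤) :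
    ∃ u v : ℝ≥0∞, u + v = x ∧ F.1 u ≤ tauM F H x ∧ H.1 v ≤ tauM F H x := by
  set c := tauM F H x with hc
  have hc0 : 0 ≤ c := tauM_nonneg F H x
  set A : Set ℝ≥0∞ := {u | u ≤ x ∧ F.1 u ≤ c} with hA
  set s := sSup A with hs
  have h0A : (0 : ℝ≥0∞) ∈ A := ⟨bot_le, by rw [F.2.2.1]; exact hc0⟩
  have hsx : s ≤ x := sSup_le fun u hu => hu.1
  have hst : s < ⊤ := lt_of_le_of_lt hsx hxt
  have hFs : F.1 s ≤ c := by
    rcases eq_or_lt_of_le (bot_le (a := s)) with h | h
    · rw [← h]
      exact h0A.2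
    · refine le_of_left F h hst fun t ht => ?_
      obtain ⟨u, hu, htu⟩ := lt_sSup_iff.mp ht
      exact le_trans (F.2.1 htu.le) hu.2
  rcases eq_or_lt_of_le hsx with h | h
  · refine ⟨x, 0, add_zero x, ?_, ?_⟩
    · rw [← h]; exact hFs
    · rw [H.2.2.1]; exact hc0
  · refine ⟨s, x - s, add_tsub_cancel_of_le hsx, hFs, ?_⟩
    have hpos : 0 < x - s := tsub_pos_of_lt h
    refine le_of_left H hpos (lt_of_le_of_lt tsub_le_self hxt) fun t ht => ?_
    -- x - t > s
    have htx : t < x := lt_of_lt_of_le ht tsub_le_self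
    have h1 : s < x - t := by
      have h2 : t + s < x := lt_tsub_iff_right.mp ht
      exact lt_tsub_iff_right.mpr (by rwa [add_comm])
    have h2 : ¬ F.1 (x - t) ≤ c := by
      intro hle
      have : x - t ∈ A := ⟨tsub_le_self, hle⟩
      exact absurd (le_sSup this) (not_le.mpr h1)
    have h3 := min_le_tauM F H (tsub_add_cancel_of_le htx.le)
    rcases min_le_iff.mp h3 with h4 | h4
    · exact absurd h4 h2
    · exact h4

/-- `G(t) = max (F(u t)) (H(v t))`. -/
lemma max_isDDF (F H : Delta) {u v : ℝ≥0∞} (hu0 : 0 < u) (hut : u < ⊤) (hv0 : 0 < v)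
    (hvt : v < ⊤) : IsDDF fun t => max (F.1 (u * t)) (H.1 (v * t)) := by
  refine ⟨?_, ?_, ?_, ?_⟩
  · intro s t hst
    exact max_le_max (F.2.1 (mul_le_mul_right hst _)) (H.2.1 (mul_le_mul_right hst _))
  · simp [F.2.2.1, H.2.2.1]
  · simp only
    rw [ENNReal.mul_top hu0.ne', ENNReal.mul_top hv0.ne', F.2.2.2.1, H.2.2.2.1, max_self]
  · intro x hx0 hxt
    have key : ∀ (K : Delta) (w : ℝ≥0∞), 0 < w → w < ⊤ →
        ContinuousWithinAt (fun t => K.1 (w * t)) (Iio x) x := by
      intro K w hw0 hwt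
      have h3 := K.2.2.2.2 (w * x) (ENNReal.mul_pos hw0.ne' hx0.ne') (ENNReal.mul_lt_top hwt hxt)
      have hcont : Continuous fun t : ℝ≥0∞ => w * t := ENNReal.continuous_const_mul hwt.ne
      refine ContinuousWithinAt.comp (t := Iio (w * x)) h3 hcont.continuousWithinAt ?_
      intro t ht
      exact (ENNReal.mul_lt_mul_iff_right hw0.ne' hwt.ne).mpr ht
    exact (key F u hu0 hut).max (key H v hv0 hvt)

/-- Every triangle function which is universal for the class of all simple spaces is pointwise at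
most `τ_M`. -/
theorem result : ∀ τ : Delta → Delta → Delta, IsTriangle τ → UniversalForSimple τ →
    ∀ (F H : Delta) (x : ℝ≥0∞), (τ F H).1 x ≤ tauM F H x := by
  intro τ hτ huniv F H x
  obtain ⟨hcomm, _, hmono, hid⟩ := hτ
  rcases eq_or_lt_of_le (bot_le (a := x)) with hx | hx0
  · rw [← hx]
    change (τ F H).1 0 ≤ _
    rw [(τ F H).2.2.1]
    exact tauM_nonneg F H _
  rcases eq_or_lt_of_le (le_top (a := x)) with hx | hxt
  · subst hx
    refine le_trans (le_one _ _) ?_
    have := min_le_tauM F H (show (⊤ : ℝ≥0∞) + ⊤ = ⊤ by simp)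
    rw [F.2.2.2.1, H.2.2.2.1, min_self] at this
    exact this
  obtain ⟨u, v, huv, hFu, hHv⟩ := exists_split F H hx0 hxt
  have hut : u < ⊤ := lt_of_le_of_lt (by rw [← huv]; exact le_self_add) hxt
  have hvt : v < ⊤ := lt_of_le_of_lt (by rw [← huv]; exact le_add_self) hxt
  rcases eq_or_lt_of_le (bot_le (a := u)) with hu | hu0
  · -- u = 0
    have hv : v = x := by rw [← huv, ← hu]; simp
    have h1 : τ F H ≤ H := by
      calc τ F H ≤ τ eps0 H := hmono _ _ _ _ (le_eps0 F) le_rfl
        _ = H := by rw [hcomm, hid]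
    refine le_trans (h1 x) ?_
    rw [← hv] at hHv ⊢
    exact hHv
  rcases eq_or_lt_of_le (bot_le (a := v)) with hv | hv0
  · -- v = 0
    have hu : u = x := by rw [← huv, ← hv]; simp
    have h1 : τ F H ≤ F := by
      calc τ F H ≤ τ F eps0 := hmono _ _ _ _ le_rfl (le_eps0 H)
        _ = F := hid F
    refine le_trans (h1 x) ?_
    rw [← hu] at hFu ⊢
    exact hFu
  -- main case
  by_cases hc1 : tauM F H x < 1
  swap
  · push Not at hc1
    exact le_trans (le_one _ _) hc1
  set G : Delta := ⟨fun t => max (F.1 (u * t)) (H.1 (v * t)), max_isDDF F H hu0 hut hv0 hvt⟩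
    with hG
  have hG1 : G.1 1 ≤ tauM F H x := by
    simp only [hG, mul_one]
    exact max_le hFu hHv
  have hGe0 : G ≠ eps0 := by
    intro h
    rw [h] at hG1
    have : eps0.1 1 = 1 := by simp [eps0]
    linarith
  by_cases hGi : G = epsInf
  · -- both functions are ε_∞
    have hF : F = epsInf := by
      apply Subtype.ext
      funext t
      by_cases ht : t = ⊤
      · rw [ht, F.2.2.2.1, epsInf.2.2.2.1]
      · have h1 : G.1 (t / u) = 0 := by
          rw [hGi]
          have : t / u ≠ ⊤ := (ENNReal.div_lt_top ht hu0.ne').ne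
          simp [epsInf, this]
        have h2 : F.1 t ≤ 0 := by
          rw [← h1]
          simp only [hG]
          rw [ENNReal.mul_div_cancel hu0.ne' hut.ne]
          exact le_max_left _ _
        have h3 : epsInf.1 t = 0 := by simp [epsInf, ht]
        rw [h3]
        exact le_antisymm h2 (nonneg F t)
    have h1 : τ F H ≤ F := by
      calc τ F H ≤ τ F eps0 := hmono _ _ _ _ le_rfl (le_eps0 H)
        _ = F := hid F
    have h3 : F.1 x = 0 := by rw [hF]; simp [epsInf, hxt.ne]
    have := h1 x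
    rw [h3] at this
    exact le_trans this (tauM_nonneg F H x)
  -- the simple space (ℝ, |.|, G)
  obtain ⟨_, htri⟩ := huniv ℝ G hGe0 hGi
  have h1 := htri 0 u.toReal (u.toReal + v.toReal)
  have e1 : edist (0 : ℝ) u.toReal = u := by
    rw [edist_dist, Real.dist_eq, zero_sub, abs_neg, abs_of_nonneg ENNReal.toReal_nonneg,
      ENNReal.ofReal_toReal hut.ne]
  have e2 : edist u.toReal (u.toReal + v.toReal) = v := by
    rw [edist_dist, Real.dist_eq, sub_add_cancel_left, abs_neg,
      abs_of_nonneg ENNReal.toReal_nonneg, ENNReal.ofReal_toReal hvt.ne]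
  have e3 : edist (0 : ℝ) (u.toReal + v.toReal) = x := by
    rw [edist_dist, Real.dist_eq, zero_sub, abs_neg,
      abs_of_nonneg (add_nonneg ENNReal.toReal_nonneg ENNReal.toReal_nonneg),
      ENNReal.ofReal_add ENNReal.toReal_nonneg ENNReal.toReal_nonneg,
      ENNReal.ofReal_toReal hut.ne, ENNReal.ofReal_toReal hvt.ne, huv]
  have hFle : F ≤ simpleSpace ℝ G 0 u.toReal := by
    intro t
    simp only [simpleSpace, scaleFun, e1]
    split_ifs with ht
    · exact le_one F t
    · simp only [hG]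
      rw [ENNReal.mul_div_cancel hu0.ne' hut.ne]
      exact le_max_left _ _
  have hHle : H ≤ simpleSpace ℝ G u.toReal (u.toReal + v.toReal) := by
    intro t
    simp only [simpleSpace, scaleFun, e2]
    split_ifs with ht
    · exact le_one H t
    · simp only [hG]
      rw [ENNReal.mul_div_cancel hv0.ne' hvt.ne]
      exact le_max_right _ _
  have h2 : τ F H ≤ simpleSpace ℝ G 0 (u.toReal + v.toReal) :=
    le_trans (hmono _ _ _ _ hFle hHle) h1
  refine le_trans (h2 x) ?_
  simp only [simpleSpace, scaleFun, e3]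
  rw [if_neg hxt.ne, ENNReal.div_self hx0.ne' hxt.ne]
  exact hG1

end Pool.Agent.Results.MP_6d1e65_an.StrongestTauM
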